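import Pool.Agent.X32.Uni.PairK

/-!
# Virtual zeros of the recursions `a_p` with `n` prime, `n + 2` in Chen's form and all `q_p(n)` almost primes

Let `P` be a finite set of odd primes and `L` an integer. There are `C`, `t` such that a positive proportion of the
expected number of primes `n` has the following property: `n + 2 = q_2(n)` is a product of at most two large primes, for
every `p` in `P` the number `q_p(n)` is a product of a bounded number of primes larger than a power of `n`, and all the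
other integers `n + d`, `|d| ≤ L`, have a prime factor at most `C`. Almost all of these `n` are covered by disjoint
monochromatic narrow progressions. Moreover, for `p = 2` and all `p` in `P` simultaneously: if the recursion of the
question, with any value at a time `s`, is at the time `s` on the line which meets zero at `n`, and `n - s` is at
most a power of `n`, then `n` is its next zero.
-/

set_option autoImplicit false

namespace Pool.Agent.Results.MP_e7655a_nt.ChenZeros

open Finset Polynomial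
open Pool.Agent.X32.Uni

/-- `q_p(n)` -/
def q (p n : ℕ) : ℕ := ∑ k ∈ Icc 1 p, p.choose k * n ^ (k - 1)

/-- `v > 1` is a product of at most `r` primes, all of them larger than `y` -/
def AlmostPrime (r : ℕ) (y : ℝ) (v : ℕ) : Prop :=
  1 < v ∧ v.primeFactorsList.length ≤ r ∧ ∀ l : ℕ, l.Prime → l ∣ v → y < l

/-- every integer `n + d`, `|d| ≤ L`, `d ≠ 0, 2`, has a prime factor at most `C` -/
def Isolated (L C n : ℕ) : Prop :=
  ∀ d : ℤ, |d| ≤ L → d ≠ 0 → d ≠ 2 → ∃ l : ℕ, l.Prime ∧ l ≤ C ∧ (l : ℤ) ∣ (n : ℤ) + d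

/-- the number of the residues `n` modulo `l` for which `l` divides `n (n + 2)` or one of the `q_p(n)`, `p ∈ P` -/
def roots (P : Finset ℕ) (l : ℕ) : ℕ :=
  ((range l).filter (fun n : ℕ => l ∣ n * (n + 2) * ∏ p ∈ P, q p n)).card

/-- the expected density of the integers up to `X` with `n`, `n + 2` and all `q_p(n)` free of small prime factors -/
noncomputable def density (P : Finset ℕ) (X : ℕ) : ℝ :=
  ∏ l ∈ (Icc 1 X).filter Nat.Prime, (1 - (roots P l : ℝ) / l)

open Classical in
/-- the primes `n` in `(A, B]`, `n > X ^ (1/t)`, such that `n + 2` is a product of at most two primes `> X ^ (1/9)`, `q_p(n)`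
is a product of at most `t (p - 1)` primes `> X ^ (1/t)` for all `p` in `P`, and `n`, `n + 2` are isolated -/
noncomputable def Good (P : Finset ℕ) (L C t X A B : ℕ) : Finset ℕ :=
  (Ioc A B).filter (fun n : ℕ => n.Prime ∧ (X : ℝ) ^ (1 / (t : ℝ)) < n ∧
    AlmostPrime 2 ((X : ℝ) ^ (1 / 9 : ℝ)) (n + 2) ∧ AlmostPrime t ((X : ℝ) ^ (1 / (t : ℝ))) (n + 2) ∧
    (∀ p ∈ P, AlmostPrime (t * (p - 1)) ((X : ℝ) ^ (1 / (t : ℝ))) (q p n)) ∧ Isolated L C n)

/-- the terms `a, a + d, ..., a + (s - 1) d` of the progression `z = (a, d)` -/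
def terms (s : ℕ) (z : ℕ × ℕ) : Finset ℕ := (range s).image (fun i => z.1 + i * z.2)

/-- `a` satisfies the recursion `a(n) = |a(n-1) - gcd(a(n-1), n ^ p - 1)|` after the time `s` -/
def Recursion (p s : ℕ) (a : ℕ → ℕ) : Prop :=
  ∀ n : ℕ, s < n → (a n : ℤ) = |(a (n - 1) : ℤ) - (Nat.gcd (a (n - 1)) (n ^ p - 1) : ℤ)|

theorem mul_q (p n : ℕ) : n * q p n + 1 = (n + 1) ^ p := by
  rw [add_pow, range_eq_Ico, sum_eq_sum_Ico_succ_bot (by omega : 0 < p + 1)]
  unfold q
  rw [mul_sum, add_comm]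
  congr 1
  · simp
  · refine sum_congr ?_ fun k hk => ?_
    · ext k
      simp only [mem_Icc, mem_Ico]
      omega
    · rw [mem_Ico] at hk
      obtain ⟨j, rfl⟩ : ∃ j, k = j + 1 := ⟨k - 1, by omega⟩
      simp only [one_pow, mul_one, Nat.add_sub_cancel]
      push_cast
      ring

theorem q_eq (p n : ℕ) : q p n = ∑ i ∈ range p, (n + 1) ^ i := by
  rcases Nat.eq_zero_or_pos n with rfl | hn
  · unfold q
    rcases Nat.eq_zero_or_pos p with rfl | hp
    · simp
    rw [sum_eq_single 1]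
    · simp
    · intro k hk h1
      rw [mem_Icc] at hk
      rw [zero_pow (by omega), mul_zero]
    · intro h
      exact absurd (mem_Icc.2 ⟨le_rfl, hp⟩) h
  · have h1 := mul_q p n
    have h2 : (∑ i ∈ range p, (n + 1) ^ i) * n + 1 = (n + 1) ^ p := geom_sum_mul_add n p
    have h3 : n * q p n = n * ∑ i ∈ range p, (n + 1) ^ i := by
      rw [mul_comm n (∑ i ∈ range p, (n + 1) ^ i)]
      omega
    exact Nat.eq_of_mul_eq_mul_left hn h3

/-- the last run of the recursion -/
theorem last_run (p s n : ℕ) (y : ℝ) (h1 : ∀ l : ℕ, l.Prime → l ∣ n → y < l) (h2 : ∀ l : ℕ, l.Prime → l ∣ q p n → y < l)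
    (hs : ((n : ℝ) - s) ≤ y) (a : ℕ → ℕ) (ha : Recursion p s a) (h0 : a s = n - s) :
    ∀ k : ℕ, s ≤ k → k ≤ n → a k = n - k := by
  intro k hk
  induction k, hk using Nat.le_induction with
  | base => intro _; exact h0
  | succ k hk ih =>
    intro hlt
    have h3 := ih (by omega)
    have h4 := ha (k + 1) (by omega)
    rw [Nat.add_sub_cancel, h3] at h4
    have h5 : Nat.gcd (n - k) ((k + 1) ^ p - 1) = 1 := by
      by_contra hg
      obtain ⟨l, hl, hld⟩ := Nat.exists_prime_and_dvd hg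
      have h6 : l ∣ n - k := hld.trans (Nat.gcd_dvd_left _ _)
      have h7 : l ∣ (k + 1) ^ p - 1 := hld.trans (Nat.gcd_dvd_right _ _)
      have h8 : l ≤ n - k := Nat.le_of_dvd (by omega) h6
      have h9 : (l : ℤ) ∣ ((n : ℤ) + 1) - ((k : ℤ) + 1) := by
        have h := Int.natCast_dvd_natCast.2 h6
        rw [Nat.cast_sub (by omega : k ≤ n)] at h
        rwa [show ((n : ℤ) + 1) - ((k : ℤ) + 1) = n - k by ring]
      have h10 : (l : ℤ) ∣ ((n : ℤ) + 1) ^ p - ((k : ℤ) + 1) ^ p := h9.trans (sub_dvd_pow_sub_pow _ _ p)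
      have h11 : (l : ℤ) ∣ ((k : ℤ) + 1) ^ p - 1 := by
        have h := Int.natCast_dvd_natCast.2 h7
        rw [Nat.cast_sub (Nat.one_le_pow _ _ (by omega))] at h
        push_cast at h
        exact h
      have h12 : (l : ℤ) ∣ (n : ℤ) * q p n := by
        have h := dvd_add h10 h11
        have h' : ((n : ℤ) * q p n) + 1 = ((n : ℤ) + 1) ^ p := by exact_mod_cast mul_q p n
        rwa [show ((n : ℤ) + 1) ^ p - ((k : ℤ) + 1) ^ p + (((k : ℤ) + 1) ^ p - 1) = (n : ℤ) * q p n by
          rw [← h']; ring] at h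
      have h13 : l ∣ n * q p n := by exact_mod_cast h12
      have h14 : y < l := by
        rcases (Nat.Prime.dvd_mul hl).1 h13 with h | h
        · exact h1 l hl h
        · exact h2 l hl h
      have h15 : (l : ℝ) ≤ (n : ℝ) - s := by
        have h16 : l + s ≤ n := by omega
        have h17 : (l : ℝ) + s ≤ n := by exact_mod_cast h16
        linarith
      linarith
    rw [h5] at h4
    have h6 : (((n - k : ℕ)) : ℤ) - ((1 : ℕ) : ℤ) = ((n - (k + 1) : ℕ) : ℤ) := by
      rw [Nat.cast_sub (by omega : k ≤ n), Nat.cast_sub (by omega : k + 1 ≤ n)]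
      push_cast
      ring
    rw [h6, Nat.abs_cast] at h4
    exact_mod_cast h4

/-- the polynomial with the values `q_p(n)` -/
noncomputable def gp (p : ℕ) : ℤ[X] := (cyclotomic p ℤ).comp (X + C 1)

theorem gp_eval {p : ℕ} (hp : p.Prime) (x : ℤ) : (gp p).eval x = ∑ i ∈ range p, (x + 1) ^ i := by
  have := Fact.mk hp
  unfold gp
  rw [eval_comp, cyclotomic_prime, eval_finsetSum]
  simp

theorem gp_nat {p : ℕ} (hp : p.Prime) (n : ℕ) : (gp p).eval (n : ℤ) = (q p n : ℤ) := by
  rw [gp_eval hp, q_eq]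
  push_cast
  rfl

theorem gp_deg {p : ℕ} (hp : p.Prime) : (gp p).natDegree = p - 1 := by
  unfold gp
  rw [natDegree_comp, natDegree_cyclotomic, natDegree_X_add_C, mul_one, Nat.totient_prime hp]

theorem gp_mul {p : ℕ} (hp : p.Prime) (z : ℂ) : aeval z (gp p) * z = (z + 1) ^ p - 1 := by
  have := Fact.mk hp
  unfold gp
  rw [aeval_comp, cyclotomic_prime]
  simp only [map_sum, map_pow, map_add, aeval_X, aeval_C]
  have := geom_sum_mul (z + 1) p
  simpa using this

theorem result (P : Finset ℕ) (hP : ∀ p ∈ P, p.Prime ∧ p ≠ 2) (L : ℕ) : ∃ C t : ℕ, 1 ≤ t ∧ ∃ κ : ℝ, 0 < κ ∧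
    -- the number of the `n` in intervals, and coverings by narrow progressions
    (∀ (s r : ℕ) (θ δ : ℝ), 1 ≤ s → 0 < θ → 0 < δ → ∃ b X₀ : ℕ, ∀ X : ℕ, X₀ ≤ X →
      κ / Real.log X ^ (∑ p ∈ P, (p - 1) + 2) ≤ density P X ∧
      ∀ A B : ℕ, B ≤ X → θ * X ≤ (B : ℝ) - A →
        κ * ((B : ℝ) - A) * density P X ≤ ((Good P L C t X A B).card : ℝ) ∧
        ∀ χ : ℕ → Fin r, ∃ Q : Finset (ℕ × ℕ),
          (∀ z ∈ Q, 1 ≤ z.2 ∧ (z.2 : ℝ) ≤ Real.log X ^ b ∧
            ∀ l < s, z.1 + l * z.2 ∈ Good P L C t X A B ∧ χ (z.1 + l * z.2) = χ z.1) ∧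
          (Q : Set (ℕ × ℕ)).PairwiseDisjoint (terms s) ∧
          (((Good P L C t X A B \ Q.biUnion (terms s)).card : ℕ) : ℝ) ≤ δ * ((B : ℝ) - A) * density P X) ∧
    -- zeros of the recursions for `p = 2` and all `p` in `P`
    ∀ X A B n : ℕ, n ∈ Good P L C t X A B → ∀ p : ℕ, p = 2 ∨ p ∈ P →
      ∀ s : ℕ, s < n → ((n : ℝ) - s) ≤ (X : ℝ) ^ (1 / (t : ℝ)) → ∀ a : ℕ → ℕ, Recursion p s a → a s = n - s →
        a n = 0 ∧ ∀ k : ℕ, s ≤ k → k < n → a k ≠ 0 := by
  classical
  obtain ⟨e, -⟩ : ∃ e : Fin P.card ≃ P, True := ⟨P.equivFin.symm, trivial⟩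
  have heP : ∀ l, ((e l : ℕ)).Prime ∧ (e l : ℕ) ≠ 2 := fun l => hP _ (e l).2
  have hprod : ∀ x : ℤ, ∏ l, (gp (e l)).eval x = ∏ p ∈ P, ∑ i ∈ range p, (x + 1) ^ i := by
    intro x
    rw [← prod_coe_sort P (fun p => ∑ i ∈ range p, (x + 1) ^ i), ← e.prod_comp]
    exact prod_congr rfl fun l _ => gp_eval (heP l).1 x
  have hsum : ∑ l, (gp (e l)).natDegree = ∑ p ∈ P, (p - 1) := by
    rw [← sum_coe_sort P (fun p => p - 1), ← e.sum_comp]
    exact sum_congr rfl fun l _ => gp_deg (heP l).1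
  obtain ⟨G, hG⟩ : ∃ G : Finset ℤ[X], G = ((Icc (-(L : ℤ)) L).filter (fun d : ℤ => d ≠ 0 ∧ d ≠ 2)).image
    (fun d : ℤ => X + C d) := ⟨_, rfl⟩
  obtain ⟨C', t, ht, κ, hκ, H⟩ := pairK 2 (by norm_num) (fun l => gp (e l)) (by
      intro l
      rw [gp_deg (heP l).1]
      have := (heP l).1.two_le
      omega) (by
      intro l hl
      refine ⟨-1, ?_⟩
      rw [hprod]
      have h1 : ∏ p ∈ P, ∑ i ∈ range p, ((-1 : ℤ) + 1) ^ i = 1 := by
        refine prod_eq_one fun p hp => ?_
        rw [sum_eq_single 0]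
        · simp
        · intro i _ hi
          rw [show (-1 : ℤ) + 1 = 0 by ring, zero_pow hi]
        · intro h
          exact absurd (mem_range.2 (hP p hp).1.pos) h
      rw [h1]
      intro h
      have h2 : (l : ℤ) ∣ 1 := by
        have := (dvd_neg (a := (l : ℤ))).2 h
        simpa using this
      have h3 := Int.le_of_dvd one_pos h2
      have h4 := hl.two_le
      omega) G (by
      intro f hf
      rw [hG, mem_image] at hf
      obtain ⟨d, hd, rfl⟩ := hf
      rw [mem_filter] at hd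
      refine ⟨X_add_C_ne_zero d, -(d : ℂ), ?_, ?_, ?_, ?_⟩
      · simp
      · intro h
        apply hd.2.1
        have : (d : ℂ) = 0 := by
          rw [← neg_eq_zero]
          exact h
        exact_mod_cast this
      · intro h
        apply hd.2.2
        have : (d : ℂ) = 2 := by
          push_cast at h
          linear_combination -h
        exact_mod_cast this
      · intro l h
        have h1 := gp_mul (heP l).1 (-(d : ℂ))
        rw [h, zero_mul] at h1
        have h2 : (1 - (d : ℂ)) ^ (e l : ℕ) = 1 := by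
          have : (-(d : ℂ) + 1) = 1 - d := by ring
          rw [this] at h1
          linear_combination -h1
        have h3 : (1 - d : ℤ) ^ (e l : ℕ) = 1 := by exact_mod_cast h2
        have h4 : Odd (e l : ℕ) := (heP l).1.odd_of_ne_two (heP l).2
        have h5 : (1 - d : ℤ) = 1 := by
          have := h4.strictMono_pow (R := ℤ) |>.injective (a₁ := 1 - d) (a₂ := 1)
          apply this
          simpa using h3
        apply hd.2.1
        linarith)
  rw [hsum] at H
  have hal : ∀ (r : ℕ) (y : ℝ) (v : ℕ), Almost r y (v : ℤ) ↔ AlmostPrime r y v := by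
    intro r y v
    unfold Almost AlmostPrime
    rw [Nat.abs_cast, Int.natAbs_natCast]
    constructor
    · rintro ⟨h1, h2, h3⟩
      exact ⟨by exact_mod_cast h1, h2, fun l hl hd => h3 l hl (Int.natCast_dvd_natCast.2 hd)⟩
    · rintro ⟨h1, h2, h3⟩
      exact ⟨by exact_mod_cast h1, h2, fun l hl hd => h3 l hl (Int.natCast_dvd_natCast.1 hd)⟩
  have heq : ∀ X A B : ℕ, GP 2 (fun l => gp (e l)) G C' t X A B = Good P L C' t X A B := by
    intro X A B
    unfold GP Good
    apply filter_congr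
    intro n _
    have c2 : (n : ℤ) + 2 = ((n + 2 : ℕ) : ℤ) := by push_cast; ring
    rw [c2, hal, hal]
    have h1 : (∀ l : Fin P.card, Almost (t * (gp (e l)).natDegree) ((X : ℝ) ^ (1 / (t : ℝ))) ((gp (e l)).eval (n : ℤ))) ↔
        ∀ p ∈ P, AlmostPrime (t * (p - 1)) ((X : ℝ) ^ (1 / (t : ℝ))) (q p n) := by
      constructor
      · intro h p hp
        have h2 := h (e.symm ⟨p, hp⟩)
        rw [Equiv.apply_symm_apply] at h2
        rw [← hal, ← gp_nat (hP p hp).1]
        rwa [gp_deg (hP p hp).1] at h2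
      · intro h l
        rw [gp_deg (heP l).1, gp_nat (heP l).1, hal]
        exact h _ (e l).2
    have h2 : (∀ f ∈ G, ∃ l : ℕ, l.Prime ∧ l ≤ C' ∧ (l : ℤ) ∣ f.eval (n : ℤ)) ↔ Isolated L C' n := by
      unfold Isolated
      rw [hG]
      constructor
      · intro h d h3 h4 h5
        have := h (Polynomial.X + C d) (mem_image.2 ⟨d, by
          rw [mem_filter, mem_Icc]
          exact ⟨abs_le.1 h3, h4, h5⟩, rfl⟩)
        simpa using this
      · intro h f hf
        rw [mem_image] at hf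
        obtain ⟨d, hd, rfl⟩ := hf
        rw [mem_filter, mem_Icc] at hd
        have := h d (abs_le.2 hd.1) hd.2.1 hd.2.2
        simpa using this
    rw [h1, h2]
  have hom : ∀ l : ℕ, omP 2 (fun l => gp (e l)) l = roots P l := by
    intro l
    unfold omP roots
    congr 1
    apply filter_congr
    intro n _
    rw [hprod, ← Int.natCast_dvd_natCast]
    push_cast
    have : ∀ p ∈ P, ((q p n : ℕ) : ℤ) = ∑ i ∈ range p, ((n : ℤ) + 1) ^ i := by
      intro p _
      rw [q_eq]
      push_cast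
      rfl
    rw [prod_congr rfl this]
  have hV : ∀ X : ℕ, VP 2 (fun l => gp (e l)) X = density P X := by
    intro X
    unfold VP density
    exact prod_congr rfl fun l _ => by rw [hom]
  simp only [heq, hV] at H
  refine ⟨C', t, ht, κ, hκ, H, fun X A B n hn p hp s hs hsX a ha h0 => ?_⟩
  unfold Good at hn
  rw [mem_filter, mem_Ioc] at hn
  obtain ⟨_, hnp, hnX, -, h2, h3, -⟩ := hn
  have h4 : ∀ l : ℕ, l.Prime → l ∣ n → (X : ℝ) ^ (1 / (t : ℝ)) < l := by
    intro l hl hd
    rw [(Nat.prime_dvd_prime_iff_eq hl hnp).1 hd]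
    exact hnX
  have h5 : ∀ l : ℕ, l.Prime → l ∣ q p n → (X : ℝ) ^ (1 / (t : ℝ)) < l := by
    rcases hp with rfl | hp
    · have : q 2 n = n + 2 := by
        rw [q_eq]
        simp [sum_range_succ]
        ring
      rw [this]
      exact h2.2.2
    · exact (h3 p hp).2.2
  have h6 := last_run p s n _ h4 h5 hsX a ha h0
  refine ⟨?_, fun k hk1 hk2 => ?_⟩
  · rw [h6 n hs.le le_rfl]
    omega
  · rw [h6 k hk1 hk2.le]
    omega

end Pool.Agent.Results.MP_e7655a_nt.ChenZeros
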