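import Pool.Agent.T2H19.GR.All

/-!
# The gcd recursion with `n ^ p - 1` in the random model

With `b = a (n) + n` one has `(n + 1) ^ p - 1 ≡ (b + 1) ^ p - 1` modulo `a (n)`, so that the recursion of the problem reads
`a (n + 1) = a (n) - gcd (a (n), (b + 1) ^ p - 1)`. In the model the number `b` is replaced, in the stage after the zero `s`, by
an integer `X s b`, uniformly distributed on `0, …, (b ^ p)! - 1` (so that its residues modulo the primes `l ≤ b ^ p` are uniform
and independent), all the `X s b` being independent. A number `m` is prime in the model if its random substitute has no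
prime factor `≤ √m`.
-/

set_option autoImplicit false

namespace Pool.Agent.Results.MP_e7655a_nt.RandomModel

open MeasureTheory ProbabilityTheory Filter Topology Pool.Agent.T2H19.GR

/-- Let `p` be a prime. (1) The recursion has exactly one solution for every array `X`, and (2) for `X s b = b` it is the
recursion of the problem and `Good` means that `n` and `q_p(n)` are prime. (3) The random model exists. (4) In the random
model almost surely: (a) all but finitely many zeros `n` are such that the substitute of `n q_p(n)` has no prime factor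
`≤ 2 n`; (b) if `p ≤ 3` then `n` and `q_p(n)` are prime in the model for all but finitely many zeros `n`; (c) if `p ≥ 5` then there
are infinitely many zeros `n` for which `n` is prime but `q_p(n)` is not, and infinitely many for which both are; (d) the
proportion of the zeros `n` for which both are prime is `min (1, 2 / (p - 1))`. -/
theorem result (p : ℕ) (hp : p.Prime) :
    (∀ X : ℕ → ℕ → ℕ, ∃ a σ : ℕ → ℕ, IsRun p X a σ ∧
      ∀ a' σ' : ℕ → ℕ, IsRun p X a' σ' → ∀ n, 1 ≤ n → a' n = a n ∧ σ' n = σ n) ∧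
    (∀ a : ℕ → ℤ, a 1 = 1 →
      (∀ n : ℕ, 2 ≤ n → a n = |a (n - 1) - (Int.gcd (a (n - 1)) ((n : ℤ) ^ p - 1) : ℤ)|) →
      ∀ a' σ : ℕ → ℕ, IsRun p (fun _ b => b) a' σ → (∀ n, 1 ≤ n → (a' n : ℤ) = a n) ∧
        ∀ n, 2 ≤ n → (Good p (fun _ b => b) σ n ↔ n.Prime ∧ (((n + 1) ^ p - 1) / n).Prime)) ∧
    (∃ (Ω : Type) (_ : MeasurableSpace Ω) (P : Measure Ω) (X : ℕ → ℕ → Ω → ℕ),
      Model (fun b => (b ^ p).factorial) P X) ∧
    ∀ (Ω : Type) [MeasurableSpace Ω] (P : Measure Ω) (X : ℕ → ℕ → Ω → ℕ),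
      Model (fun b => (b ^ p).factorial) P X → ∀ a σ : Ω → ℕ → ℕ,
      (∀ ω, IsRun p (fun s b => X s b ω) (a ω) (σ ω)) → ∀ᵐ ω ∂P,
        (∃ N, ∀ n, N ≤ n → a ω n = 0 →
          ∀ l : ℕ, l.Prime → l ≤ 2 * n → ¬ l ∣ (X (σ ω n) n ω + 1) ^ p - 1) ∧
        (p ≤ 3 → ∃ N, ∀ n, N ≤ n → a ω n = 0 → Good p (fun s b => X s b ω) (σ ω) n) ∧
        (5 ≤ p →
          (∀ N, ∃ n, N ≤ n ∧ a ω n = 0 ∧ PrimeIn n (X (σ ω n) n ω) ∧
            ¬ PrimeIn (qp p n) (qp p (X (σ ω n) n ω))) ∧
          ∀ N, ∃ n, N ≤ n ∧ a ω n = 0 ∧ Good p (fun s b => X s b ω) (σ ω) n) ∧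
        ∀ z : ℕ → ℕ, StrictMono z → (∀ n, (∃ k, z k = n) ↔ 1 ≤ n ∧ a ω n = 0) →
          Tendsto (cnt fun k => Good p (fun s b => X s b ω) (σ ω) (z k)) atTop
            (𝓝 (min 1 (2 / ((p : ℝ) - 1)))) := by
  have hp2 := hp.two_le
  refine ⟨fun X => ?_, ?_, ?_, ?_⟩
  · exact ⟨_, _, Run.isRun_st p X, fun a' σ' h => Run.run_unique (Run.isRun_st p X) h⟩
  · intro a h1 h a' σ hr
    exact Run.literal p hp2 a h1 h a' σ hr
  · exact T_MOD (fun b => (b ^ p).factorial) (fun b => Nat.factorial_pos _)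
  · intro Ω _ P X hX a σ hrun
    have hZT := T_ZT
    have hNT := T_NT (T_FREE T_CRT) (T_DA1 T_CRT) T_DA2
    have hSTG := T_STG (T_SL hZT (T_DL hZT) T_GEN) hNT
    exact model_main hZT T_GEN hSTG T_ADM1 (T_GL1 hZT T_GEN) (T_CHN hZT) (T_CMPL T_CRT T_MAP)
      (T_LLN hZT T_GEN) p hp P X hX a σ hrun

end Pool.Agent.Results.MP_e7655a_nt.RandomModel
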